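import Pool.Agent.Helper14.T3.StL

/-!
# Project T3: R1
-/

set_option autoImplicit false

namespace Pool.Agent.Helper14.T3

private theorem pos_case (hDsr : Dsr) (n c : ℕ) (hn : 1 ≤ n) (hc : 1 ≤ c)
    (h : Nat.Coprime (3 * c) n) :
    18 * (c : ℤ) ^ 2 * (dS c n - dS (3 * (c : ℤ)) n) =
      -2 * (n : ℤ) ^ 2 * (9 * dS n c - dS n (3 * c)) - 9 * (n : ℤ) ^ 2 * (c : ℤ) ^ 3 +
        n * c * ((n : ℤ) ^ 2 - 3 * (c : ℤ) ^ 2 + 1) := by
  have h1 := hDsr c n hc hn (Nat.Coprime.coprime_mul_left h)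
  have h2 := hDsr (3 * c) n (by omega) hn h
  push_cast at h2
  have e : (6 : ℤ) * (18 * (c : ℤ) ^ 2 * (dS c n - dS (3 * (c : ℤ)) n)) =
      6 * (-2 * (n : ℤ) ^ 2 * (9 * dS n c - dS n (3 * c)) - 9 * (n : ℤ) ^ 2 * (c : ℤ) ^ 3 +
        n * c * ((n : ℤ) ^ 2 - 3 * (c : ℤ) ^ 2 + 1)) := by
    linear_combination 9 * h1 - h2
  exact mul_left_cancel₀ (by norm_num) e

theorem hDr1 (hDsb : Dsb) (hDsr : Dsr) : Dr1 := by
  intro a c hc hac
  have ha0 : a ≠ 0 := by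
    rintro rfl
    rw [isCoprime_zero_left, Int.isUnit_iff] at hac
    omega
  obtain ⟨n, hn | hn⟩ := a.eq_nat_or_neg
  · subst hn
    have hn1 : 1 ≤ n := Nat.one_le_iff_ne_zero.2 (by exact_mod_cast ha0)
    have hcop : Nat.Coprime (3 * c) n := by
      rw [← Nat.isCoprime_iff_coprime]
      push_cast
      exact hac.symm
    have := pos_case hDsr n c hn1 hc hcop
    have hs : (n : ℤ).sign = 1 := Int.sign_eq_one_of_pos (by exact_mod_cast hn1)
    rw [IZ, hs, mul_one, Int.natAbs_natCast]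
    exact this
  · subst hn
    have hn1 : 1 ≤ n := Nat.one_le_iff_ne_zero.2 (by
      rintro rfl
      exact ha0 (by simp))
    have hac' : IsCoprime (n : ℤ) (3 * (c : ℤ)) := (IsCoprime.neg_left_iff _ _).1 hac
    have hcop : Nat.Coprime (3 * c) n := by
      rw [← Nat.isCoprime_iff_coprime]
      push_cast
      exact hac'.symm
    have hc1 : IsCoprime (c : ℤ) (n : ℤ) := (IsCoprime.of_mul_right_right hac').symm
    have hP := pos_case hDsr n c hn1 hc hcop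
    have b1 := ((hDsb (c : ℤ) n hn1).2.1 hc1)
    have b2 := ((hDsb (3 * (c : ℤ)) n hn1).2.1 hac'.symm)
    have b3 := ((hDsb (n : ℤ) c hc).2.1 hc1.symm)
    have b4 := ((hDsb (n : ℤ) (3 * c) (by omega)).2.1 (by push_cast; exact hac'))
    have hs : (-(n : ℤ)).sign = -1 := Int.sign_eq_neg_one_of_neg (by
      have : (1 : ℤ) ≤ n := by exact_mod_cast hn1
      omega)
    rw [IZ, hs, Int.natAbs_neg, Int.natAbs_natCast]
    have e1 : (c : ℤ) * -1 = -(c : ℤ) := by ring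
    have e2 : 3 * (-(c : ℤ)) = -(3 * (c : ℤ)) := by ring
    rw [e1, e2]
    push_cast at b4
    have e : (2 : ℤ) * (18 * (c : ℤ) ^ 2 * (dS (-(c : ℤ)) n - dS (-(3 * (c : ℤ))) n)) =
        2 * (-2 * (-(n : ℤ)) ^ 2 * (9 * dS (-(n : ℤ)) c - dS (-(n : ℤ)) (3 * c)) -
          9 * (-(n : ℤ)) ^ 2 * (c : ℤ) ^ 3 +
          (-(n : ℤ)) * c * ((-(n : ℤ)) ^ 2 - 3 * (c : ℤ) ^ 2 + 1)) := by
      linear_combination (-2) * hP + 18 * (c : ℤ) ^ 2 * b1 - 18 * (c : ℤ) ^ 2 * b2 +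
        18 * (n : ℤ) ^ 2 * b3 - 2 * (n : ℤ) ^ 2 * b4
    exact mul_left_cancel₀ (by norm_num) e

end Pool.Agent.Helper14.T3
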