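import Pool.Agent.Helper10.CV.M_N1
import Pool.Agent.Helper38.CV.M_Far
import Pool.Agent.Helper55.CV.M_Fex
import Pool.Agent.Helper6.W3.M_Nf
import Pool.Agent.Helper7.W3.M_Hk
import Pool.Agent.Helper7.W3.M_Ld
import Pool.Agent.Helper7.W3.M_PlU
import Pool.Agent.Helper9.W3.M_Com
import Pool.Agent.Helper9.W3.M_Lvl
import Pool.Agent.Helper10.W3.M_Tre
import Pool.Agent.Helper10.W3.M_Trq
import Pool.Agent.Helper16.W3.M_HkW
import Pool.Agent.Helper16.W3.M_SubA
import Pool.Agent.Helper24.W3.M_Exp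
import Pool.Agent.Helper25.W3.M_SubB
import Pool.Agent.Helper29.W3.M_HkT
import Pool.Agent.Helper29.W3.M_Low0
import Pool.Agent.Helper32.W3.M_Uni
import Pool.Agent.Helper36.W3.M_Edg
import Pool.Agent.Helper36.W3.M_Hk2
import Pool.Agent.Helper37.W3.M_Lw1
import Pool.Agent.Helper43.W3.M_Hk7_0
import Pool.Agent.Helper47.W3.M_Hk7_1
import Pool.Agent.Helper47.W3.M_Hk7_2
import Pool.Agent.Helper47.W3.M_Nrm
import Pool.Agent.Helper53.W3.M_HkS
import Pool.Agent.Helper62.W3.M_Led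
import Pool.Agent.Helper63.W3.M_Rel
import Pool.Agent.Helper69.W3.M_HkF
import Pool.Agent.Helper78.W3.M_Cert
import Pool.Agent.Helper78.W3.M_Ex
import Pool.Agent.Helper78.W3.M_Lifp
import Pool.Agent.Helper78.W3.M_Trm
import Pool.Agent.Helper83.W3.M_HkB
import Pool.Agent.Helper86.W3.M_Prd
import Pool.Agent.Helper86.W3.M_Sur
import Pool.Agent.Helper98.W3.M_PlA
import Pool.Agent.Helper99.W3.M_Bb
import Pool.Agent.Helper14.T3.M_Dr1
import Pool.Agent.Helper26.T3.M_Sedge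
import Pool.Agent.Helper29.T3.M_Lif3
import Pool.Agent.Helper33.T3.M_Neg3
import Pool.Agent.Helper34.T3.M_Edgi
import Pool.Agent.Helper36.T3.M_Farp
import Pool.Agent.Helper53.T3.M_Cnt3
import Pool.Agent.Helper55.T3.M_Sgn3
import Pool.Agent.Helper55.T3.M_Tri3
import Pool.Agent.Helper61.T3.M_Bast3
import Pool.Agent.Helper62.T3.M_X3l
import Pool.Agent.Helper66.T3.M_Chs
import Pool.Agent.Helper66.T3.M_RmapS3
import Pool.Agent.Helper67.T3.M_DimFS3
import Pool.Agent.Helper69.T3.M_Eedge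
import Pool.Agent.Helper7.T3.M_E1S3
import Pool.Agent.Helper7.T3.M_LB3of
import Pool.Agent.Helper71.T3.M_Dsb
import Pool.Agent.Helper73.T3.M_O1S3
import Pool.Agent.Helper76.T3.M_Itr3
import Pool.Agent.Helper76.T3.M_UBT3of
import Pool.Agent.Helper8.T3.M_Unb3
import Pool.Agent.Helper84.T3.M_Dect3
import Pool.Agent.Helper86.T3.M_KerOS3
import Pool.Agent.Helper86.T3.M_Tree3
import Pool.Agent.Helper88.T3.M_CoreT3of
import Pool.Agent.Helper89.T3.M_BalS3
import Pool.Agent.Helper9.T3.M_Dsr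
import Pool.Agent.Helper92.T3.M_DimES3
import Pool.Agent.Helper94.T3.M_DimOS3

/-!
# Project T3: assembly of the algebraic part
-/

set_option autoImplicit false

namespace Pool.Agent.Helper14.T3

open Pool.Agent.Helper14.CV Pool.Agent.Helper14.W3 Pool.Agent.Helper78.W3

/-- Upper bound. -/
theorem ubt3 : UBT3 := by
  have far := Pool.Agent.Helper38.CV.hFar
  have plA := Pool.Agent.Helper98.W3.hPlA
  have plU := Pool.Agent.Helper7.W3.hPlU
  have edg := Pool.Agent.Helper36.W3.hEdg plA plU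
  exact Pool.Agent.Helper76.T3.hUBT3of Pool.Agent.Helper89.T3.hBalS3 (Pool.Agent.Helper7.T3.hE1S3 edg plA far) Pool.Agent.Helper92.T3.hDimES3
    (Pool.Agent.Helper73.T3.hO1S3 edg plA far) Pool.Agent.Helper94.T3.hDimOS3
    (Pool.Agent.Helper86.T3.hKerOS3 Pool.Agent.Helper66.T3.hRmapS3 Pool.Agent.Helper94.T3.hDimOS3 Pool.Agent.Helper67.T3.hDimFS3)

/-- Lower bound. -/
theorem lbt3 : LBT3 := by
  have n1 := Pool.Agent.Helper10.CV.hN1
  have far := Pool.Agent.Helper38.CV.hFar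
  have hk := Pool.Agent.Helper7.W3.hHk n1
  have plA := Pool.Agent.Helper98.W3.hPlA
  have plU := Pool.Agent.Helper7.W3.hPlU
  have edg := Pool.Agent.Helper36.W3.hEdg plA plU
  have trm := Pool.Agent.Helper78.W3.hTrm
  have tre := Pool.Agent.Helper10.W3.hTre plA edg
  have rel := Pool.Agent.Helper63.W3.hRel tre
  have ex := Pool.Agent.Helper78.W3.ExM.hEx trm plA Pool.Agent.Helper55.CV.hFex far
  have uni := Pool.Agent.Helper32.W3.hUni tre edg far
  have hkB := Pool.Agent.Helper83.W3.hHkB hk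
  have hkF := Pool.Agent.Helper69.W3.hHkF hkB plA edg
  have hk2 := Pool.Agent.Helper36.W3.hHk2 hkF tre trm
  have hk7 : ∀ i, S3Hk7 i := by
    intro i
    fin_cases i
    · exact Pool.Agent.Helper43.W3.hHk7_0 hkF tre trm
    · exact Pool.Agent.Helper47.W3.hHk7_1 hkF tre trm
    · exact Pool.Agent.Helper47.W3.R2.hHk7_2 hkF tre trm
  have low0 := Pool.Agent.Helper29.W3.hLow0
  have prd := Pool.Agent.Helper86.W3.hPrd low0
  have subA := Pool.Agent.Helper16.W3.hSubA low0 prd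
  have subB := Pool.Agent.Helper25.W3.hSubB low0 prd
  have nf := Pool.Agent.Helper6.W3.hNf low0 subA subB
  have exp := Pool.Agent.Helper24.W3.hExp low0 nf
  have lw1 := Pool.Agent.Helper37.W3.hLw1 low0 nf exp
  have ld := Pool.Agent.Helper7.W3.hLd trm low0 nf exp lw1 Pool.Agent.Helper78.W3.hCert
  have bb := Pool.Agent.Helper99.W3.hBb low0
  have sur := Pool.Agent.Helper86.W3.hSur low0 lw1 bb
  have led := Pool.Agent.Helper62.W3.hLed low0 lw1 bb sur
  have dsb := Pool.Agent.Helper71.T3.hDsb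
  have edgi := Pool.Agent.Helper34.T3.hEdgi dsb (Pool.Agent.Helper14.T3.hDr1 dsb Pool.Agent.Helper9.T3.hDsr)
  have eed := Pool.Agent.Helper69.T3.hEedge (Pool.Agent.Helper26.T3.hSedge edgi)
  have neg := Pool.Agent.Helper33.T3.hNeg3 low0 bb rel plA edg
  have tree := Pool.Agent.Helper86.T3.hTree3 eed Pool.Agent.Helper36.T3.hFarp plA edg
  have x3 := Pool.Agent.Helper62.T3.hX3l neg tree Pool.Agent.Helper66.T3.hChs
  have itr := Pool.Agent.Helper76.T3.hItr3 x3 rel hkB hk2 hk7 trm low0 lw1 ld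
  have tri := Pool.Agent.Helper55.T3.hTri3 low0 bb led ex itr
  have lif := Pool.Agent.Helper29.T3.hLif3 rel (Pool.Agent.Helper78.W3.LifpM.hLifp trm) ex uni
  exact Pool.Agent.Helper7.T3.hLB3of tri lif Pool.Agent.Helper8.T3.hUnb3 Pool.Agent.Helper53.T3.hCnt3

/-- Signs. -/
theorem sgn3 : Sgn3 := by
  have hk := Pool.Agent.Helper7.W3.hHk Pool.Agent.Helper10.CV.hN1
  have hkS := Pool.Agent.Helper53.W3.hHkS hk
  exact Pool.Agent.Helper55.T3.hSgn3 hkS (Pool.Agent.Helper16.W3.hHkW hk hkS) (Pool.Agent.Helper29.W3.hHkT hk hkS)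

/-- The core. -/
theorem core3 : CoreT3 := by
  have nrm := Pool.Agent.Helper47.W3.hNrm
  have hk := Pool.Agent.Helper7.W3.hHk Pool.Agent.Helper10.CV.hN1
  have hkS := Pool.Agent.Helper53.W3.hHkS hk
  exact Pool.Agent.Helper88.T3.hCoreT3of (Pool.Agent.Helper84.T3.hDect3 sgn3 nrm (Pool.Agent.Helper9.W3.hLvl nrm) Pool.Agent.Helper9.W3.hCom)
    (Pool.Agent.Helper61.T3.hBast3 Pool.Agent.Helper38.CV.hFar hkS) ubt3 lbt3

end Pool.Agent.Helper14.T3
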