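import Pool.Agent.Helper14.TT.Defs
import Pool.Agent.Helper76.TX.StAn
import Pool.Agent.Helper78.W3.StD

/-!
# Project T3: quadratic twists of ALL newforms of level `3^n` by the fields `Q(sqrt -D)` with `3` inert and class number prime to `3`. Definitions

`D` is squarefree, `D = 7` modulo `12`, `χ(a) = jacobiSym a D` (primitive, odd, `χ(3) = -1`), and `3` does not divide `Tn D = ∑ χ(a) a = -D h(-D)`.
The twisted path is the sum of `χ(a)` times the path from `∞` to `a/D` (`Pool.Agent.Helper76.TX.eX`, in balanced coordinates `Pool.Agent.Helper14.TT.eXb`). It is sent to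
`-` itself by `*` and to `(-1)^n` times itself by `W = (0 -1; 3^n 0)`, so it sees the newforms of root number `w3 n = -(-1)^n`.
Symbols and plane functions of level `3^n`: projects W3 (`Sym3`, `Bo`, `Pl3`, `edge3`, `pf`, `Fn3`, `Wd3`, ...).
-/

set_option autoImplicit false

namespace Pool.Agent.Helper14.T3

open Pool.Agent.Helper14.CV (Homog EqC act Tl)
open Pool.Agent.Helper14.W3 Pool.Agent.Helper78.W3
open Pool.Agent.Helper76.TX (eX Sg)
open Pool.Agent.Helper14.TT (eXb)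

/-- `∑_{a<D} χ(a) a`. -/
def Tn (D : ℕ) : ℤ := ∑ a ∈ Finset.range D, jacobiSym (a : ℤ) D * (a : ℤ)

/-- The conductors of the theorem. -/
def Okt (D : ℕ) : Prop := Squarefree D ∧ D % 12 = 7 ∧ ¬ (3 : ℤ) ∣ Tn D

/-- The root number of the newforms of level `3^n` seen by the characters: `-χ(3)^n = -(-1)^n`. -/
def w3 (n : ℕ) : ℤ := -(-1) ^ n

/-- The values at `(T_7 + 1 - T_2²)^j T_2^i` of the twisted path. -/
noncomputable def evT (D : ℕ) : (ℤ → ℤ → ℂ) →ₗ[ℂ] (ℕ → ℕ → ℂ) where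
  toFun G i j := eX D ((Bo 1)^[j] ((Tl 2 1)^[i] G))
  map_add' G H := by
    funext i j
    simp only [Pool.Agent.Helper14.CV.Tl_iter_add, Bo_iter_add, Pi.add_apply]
    exact Pool.Agent.Helper76.TX.eX_add D _ _
  map_smul' s G := by
    funext i j
    simp only [Pool.Agent.Helper14.CV.Tl_iter_smul, Bo_iter_smul, Pi.smul_apply, RingHom.id_apply]
    exact Pool.Agent.Helper76.TX.eX_smul D s _

theorem evT_apply (D : ℕ) (G : ℤ → ℤ → ℂ) (i j : ℕ) :
    evT D G i j = eX D ((Bo 1)^[j] ((Tl 2 1)^[i] G)) := rfl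

theorem evT_congr {D : ℕ} (hD : D ≠ 0) {G H : ℤ → ℤ → ℂ} (h : EqC G H) : evT D G = evT D H := by
  funext i j
  rw [evT_apply, evT_apply]
  exact Pool.Agent.Helper76.TX.eX_congr hD
    ((h.Tl_iter (l := 2) (by norm_num) 1 i).Bo_iter 1 j)

/-- The same in balanced coordinates (`m = 3^r`). -/
def evTb {R : Type} [AddCommGroup R] (D : ℕ) (m : ℤ) (G : ℤ → ℤ → R) (i j : ℕ) : R :=
  eXb D m ((Bo m)^[j] ((Tl 2 m)^[i] G))

/-- New symbols of level `3^n` with `W = -w` and `* = ε`. -/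
def NewSym3S (n : ℕ) (w ε : ℤ) (G : ℤ → ℤ → ℂ) : Prop :=
  Sym3 0 n G ∧ EqC (G + act 3 1 0 3 G + act 3 2 0 3 G) 0 ∧
    EqC (G + act 1 0 (3 ^ (n - 1)) 1 G + act 1 0 (2 * 3 ^ (n - 1)) 1 G) 0 ∧
    EqC (act 0 (-1) (3 ^ n) 0 G) (-(w • G)) ∧ EqC (act (-1) 0 0 1 G) (ε • G)

private theorem add3 {A B C A' B' C' : ℤ → ℤ → ℂ} (h : EqC (A + B + C) 0)
    (h' : EqC (A' + B' + C') 0) : EqC (A + A' + (B + B') + (C + C')) 0 := by
  have e : A + A' + (B + B') + (C + C') = (A + B + C) + (A' + B' + C') := by abel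
  have := h.add h'
  rw [← e, add_zero] at this
  exact this

theorem NewSym3S.add {n : ℕ} {w ε : ℤ} {G H : ℤ → ℤ → ℂ} (h : NewSym3S n w ε G)
    (h' : NewSym3S n w ε H) : NewSym3S n w ε (G + H) := by
  obtain ⟨a1, a2, a3, a4, a5⟩ := h
  obtain ⟨b1, b2, b3, b4, b5⟩ := h'
  refine ⟨a1.add b1, add3 a2 b2, add3 a3 b3, ?_, ?_⟩
  · rw [smul_add, neg_add]; exact a4.add b4
  · rw [smul_add]; exact a5.add b5

theorem NewSym3S.smul {n : ℕ} {w ε : ℤ} (s : ℂ) {G : ℤ → ℤ → ℂ} (h : NewSym3S n w ε G) :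
    NewSym3S n w ε (s • G) := by
  obtain ⟨a1, a2, a3, a4, a5⟩ := h
  refine ⟨a1.smul s, ?_, ?_, ?_, ?_⟩
  · have := a2.smul s
    rw [smul_zero, smul_add, smul_add] at this
    exact this
  · have := a3.smul s
    rw [smul_zero, smul_add, smul_add] at this
    exact this
  · rw [smul_comm w s, ← smul_neg]; exact a4.smul s
  · rw [smul_comm ε s]; exact a5.smul s

/-- New symbols of level `3^n` (`W = -w`, `* = ε`) as a subspace. -/
def NSS3 (n : ℕ) (w ε : ℤ) : Submodule ℂ (ℤ → ℤ → ℂ) where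
  carrier := {G | NewSym3S n w ε G}
  add_mem' h h' := NewSym3S.add h h'
  zero_mem' := by
    refine ⟨⟨fun _ _ _ _ _ => rfl, fun _ _ _ _ _ _ _ => EqC.refl _⟩, ?_, ?_, ?_, ?_⟩
    · refine EqC.of_eq fun p q _ => ?_
      simp [act]
    · refine EqC.of_eq fun p q _ => ?_
      simp [act]
    · rw [smul_zero, neg_zero]; exact EqC.refl _
    · rw [smul_zero]; exact EqC.refl _
  smul_mem' s _ h := NewSym3S.smul s h

/-- Balanced new symbols with signs, even exponent `n = 2k`. -/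
def BalE3S (k : ℕ) (w ε : ℤ) (G : ℤ → ℤ → ℂ) : Prop :=
  Sym3 k k G ∧ EqC (G + act 1 (3 ^ (k - 1)) 0 1 G + act 1 (2 * 3 ^ (k - 1)) 0 1 G) 0 ∧
    EqC (G + act 1 0 (3 ^ (k - 1)) 1 G + act 1 0 (2 * 3 ^ (k - 1)) 1 G) 0 ∧
    EqC (act 0 (-1) 1 0 G) (-(w • G)) ∧ EqC (act (-1) 0 0 1 G) (ε • G)

/-- Balanced new symbols with signs, odd exponent `n = 2k+1`. -/
def BalO3S (k : ℕ) (w ε : ℤ) (G : ℤ → ℤ → ℂ) : Prop :=
  Sym3 k (k + 1) G ∧ EqC (G + act 1 (3 ^ (k - 1)) 0 1 G + act 1 (2 * 3 ^ (k - 1)) 0 1 G) 0 ∧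
    EqC (G + act 1 0 (3 ^ k) 1 G + act 1 0 (2 * 3 ^ k) 1 G) 0 ∧
    EqC (act 0 (-1) 3 0 G) (-(w • G)) ∧ EqC (act (-1) 0 0 1 G) (ε • G)

/-- Functions `F` on `(ZMod (3^(k-1)))²` whose sums over the three translates by `3^(k-2)` vanish, in both variables, with
`F(-y,-x) = σ F(x,y)` and `F(-x,-y) = τ F(x,y)`. -/
def antiE3S (k : ℕ) (σ τ : ℤ) : Submodule ℂ (ZMod (3 ^ (k - 1)) → ZMod (3 ^ (k - 1)) → ℂ) where
  carrier := {F | ∀ x y, F x y + F (x + 3 ^ (k - 2)) y + F (x + 2 * 3 ^ (k - 2)) y = 0 ∧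
    F x y + F x (y + 3 ^ (k - 2)) + F x (y + 2 * 3 ^ (k - 2)) = 0 ∧
    F (-y) (-x) = (σ : ℂ) * F x y ∧ F (-x) (-y) = (τ : ℂ) * F x y}
  add_mem' := by
    intro F F' h h' x y
    obtain ⟨h1, h2, h3, h4⟩ := h x y
    obtain ⟨g1, g2, g3, g4⟩ := h' x y
    simp only [Pi.add_apply]
    refine ⟨by linear_combination h1 + g1, by linear_combination h2 + g2, by rw [h3, g3]; ring, by rw [h4, g4]; ring⟩
  zero_mem' := by intro x y; simp
  smul_mem' := by
    intro c F h x y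
    obtain ⟨h1, h2, h3, h4⟩ := h x y
    simp only [Pi.smul_apply, smul_eq_mul]
    refine ⟨by linear_combination c * h1, by linear_combination c * h2, by rw [h3]; ring, by rw [h4]; ring⟩

/-- Functions on `(ZMod (3^k))²` with vanishing sums over translates by `3^(k-1)` in both variables, `F(y,x) = η F(x,y)`, `F(-x,-y) = ε F(x,y)`. -/
def antiO3S (k : ℕ) (η ε : ℤ) : Submodule ℂ (ZMod (3 ^ k) → ZMod (3 ^ k) → ℂ) where
  carrier := {F | ∀ x y, F x y + F (x + 3 ^ (k - 1)) y + F (x + 2 * 3 ^ (k - 1)) y = 0 ∧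
    F x y + F x (y + 3 ^ (k - 1)) + F x (y + 2 * 3 ^ (k - 1)) = 0 ∧
    F y x = (η : ℂ) * F x y ∧ F (-x) (-y) = (ε : ℂ) * F x y}
  add_mem' := by
    intro F F' h h' x y
    obtain ⟨h1, h2, h3, h4⟩ := h x y
    obtain ⟨g1, g2, g3, g4⟩ := h' x y
    simp only [Pi.add_apply]
    refine ⟨by linear_combination h1 + g1, by linear_combination h2 + g2, by rw [h3, g3]; ring, by rw [h4, g4]; ring⟩
  zero_mem' := by intro x y; simp
  smul_mem' := by
    intro c F h x y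
    obtain ⟨h1, h2, h3, h4⟩ := h x y
    simp only [Pi.smul_apply, smul_eq_mul]
    refine ⟨by linear_combination c * h1, by linear_combination c * h2, by rw [h3]; ring, by rw [h4]; ring⟩

/-- The target of the hexagon relation, with signs. -/
def antiF3S (k : ℕ) (η ε : ℤ) : Submodule ℂ (ZMod (3 ^ k) → ZMod (3 ^ k) → ℂ) where
  carrier := {F | ∀ x y, F x y + F (x + 3 ^ (k - 1)) y + F (x + 2 * 3 ^ (k - 1)) y = 0 ∧
    F x y + F x (y + 3 ^ (k - 1)) + F x (y + 2 * 3 ^ (k - 1)) = 0 ∧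
    F y x = (η : ℂ) * F x y ∧ F (rr x) (ss y) = F x y ∧
    F (-x - 1) (-y * (1 + 3 * y)⁻¹) = -((ε : ℂ) * F x y)}
  add_mem' := by
    intro F F' h h' x y
    obtain ⟨h1, h2, h3, h4, h5⟩ := h x y
    obtain ⟨g1, g2, g3, g4, g5⟩ := h' x y
    simp only [Pi.add_apply]
    refine ⟨by linear_combination h1 + g1, by linear_combination h2 + g2, by rw [h3, g3]; ring, by rw [h4, g4],
      by rw [h5, g5]; ring⟩
  zero_mem' := by intro x y; simp
  smul_mem' := by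
    intro c F h x y
    obtain ⟨h1, h2, h3, h4, h5⟩ := h x y
    simp only [Pi.smul_apply, smul_eq_mul]
    refine ⟨by linear_combination c * h1, by linear_combination c * h2, by rw [h3]; ring, by rw [h4], by rw [h5]; ring⟩

/-- The bound for the dimension of the new symbols of level `3^n` with `W = (-1)^n`, `* = -1`. -/
def dt3 (n : ℕ) : ℕ :=
  if n ≤ 2 then 0
  else if n = 3 then 1
  else if n % 2 = 0 then 2 * 3 ^ (n / 2 - 2) * (3 ^ (n / 2 - 2) - 1)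
  else 2 * 3 ^ (n / 2 - 2) * (3 ^ (n / 2 - 1) + 1)

/-- `∑_{m ≤ n} dt3 m`. -/
def DT3 (n : ℕ) : ℕ := ∑ m ∈ Finset.range (n + 1), dt3 m

end Pool.Agent.Helper14.T3
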