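import Pool.Agent.Helper14.T3.Defs

/-!
# Project T3: signs of the twisted path and the dimension chain

Models: the modules with the same names of project TT for composite conductors (`Pool/Agent/Helper13/TT/M_SgnD.lean`, `Pool/Agent/Helper55/TT/M_DectD.lean`,
`Pool/Agent/Helper8/TT/M_CoreDof.lean`) and of project W3 for level `3^n` (`Pool/Agent/Helper72/W3/M_B3a.lean`, `Pool/Agent/Helper90/W3/M_B3b.lean`, `Pool/Agent/Helper2/W3/M_CoreOf.lean`).
-/

set_option autoImplicit false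

namespace Pool.Agent.Helper14.T3

open Pool.Agent.Helper14.CV (Homog EqC act Tl StFar StNrm StCom StLvl)
open Pool.Agent.Helper14.W3 Pool.Agent.Helper78.W3
open Pool.Agent.Helper76.TX (eX Sg)

/-- SGN3. As `SgnD` of project TT (module `Pool/Agent/Helper13/TT/M_SgnD.lean`, which never uses that the level is a power of `2`, only that `N` is prime to `D`), for level `N = 3^n`, `D = 3` modulo `4`, `3 ∤ D`, `c = (3/D)`: for `eX`: the sum of the characters over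
`a < D` is `0`. `*`: `G (-a) D = G (D - a) D`, `χ(-a) = -χ(a)`. `W = (0 -1; N 0)`: `(G∘W)(a, D) = G(-D, N a)`; for `a` prime to `D` let `a'` be the inverse of `-N a` modulo `D`, `N a a' + 1 = -D d`; `γ = (-D, a'; N a, d)` has determinant `1` and is in `Γ₀(N)`,
so `G(-D, N a) = G(1,0) + G(0,1) - G(a', D)`, `χ(a) = -c^n χ(a')`. Words in `T_2`, `Bo`: they commute with `W`, `*` up to constants and preserve symbols (S3HkS, S3HkW, S3HkT; model for `Bo`: `Pool/Agent/Helper22/W3/M_Ev.lean`). -/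
def Sgn3 : Prop := ∀ (D n : ℕ) (G : ℤ → ℤ → ℂ), D % 4 = 3 → D % 3 ≠ 0 → 2 ≤ n → Sym3 0 n G →
  evT D (act 0 (-1) (3 ^ n) 0 G) = ((jacobiSym 3 D : ℤ) ^ n : ℤ) • evT D G ∧
  evT D (act (-1) 0 0 1 G) = -evT D G

/-- DECT3. Decomposition: for `D = 7` modulo `12` (then `jacobiSym 3 D = -1`: quadratic reciprocity, `D = 3` modulo `4`, `D = 1` modulo `3`) every symbol of level `3^n` (`n ≥ 3`) has the same twisted values as a symbol of level `3^(n-1)` plus a new symbol with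
`W = (-1)^n` (that is `-w3 n`), `* = -1`. Proof as S3B3a (module `Pool/Agent/Helper72/W3/M_B3a.lean`) with signs: `A = (G + G∘t + G∘t²)/3`, `B = G - A`, `C = (B + B∘σ + B∘σ²)/3`, `E = B - C`, `F = (E + c^n E∘W)/2`, `G1 = (F - F∘*)/2`, `c = -1`. By SGN3
`evT A = c^n evT (A∘W)`, `evT E = evT F = evT G1`; by LVL `A∘W` and `C` have level `3^(n-1)`; `G0 = C + c^n A∘W`. -/
def Dect3 : Prop := ∀ (D n : ℕ) (G : ℤ → ℤ → ℂ), D % 12 = 7 → 3 ≤ n → Sym3 0 n G →
  ∃ G0 G1 : ℤ → ℤ → ℂ, Sym3 0 (n - 1) G0 ∧ NewSym3S n (w3 n) (-1) G1 ∧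
    evT D G = evT D G0 + evT D G1

/-- BAST3. Level 9: all twisted values vanish. It is enough to show `eX D G = 0` for every symbol `G` of level `9` (`T_2`, `Bo` preserve symbols, S3HkS), and for this that `G(a, D) = G(0, 1)` for `a` prime to `D` (`3 ∤ D`; the sum of the characters is `0`, `D % 4 = 3`).
Proof. Let `K(p,q)` be `G(p,q) - β(p,q)`, `β` the function with `β(p,q) = G(1,0)` if `9 ∣ q/g`, `G(0,1)` if `3 ∤ q/g`, `G(1,3)` if `q/g = ±3` modulo `9` and `(p/g)(q/(3g)) = 1` modulo `3`, `G(-1,3)` otherwise (`g = gcd(p,q)`): `β` is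
invariant under `Γ₀(9)`, so `K` is a symbol of level `9`, with `K = 0` at `(1,0), (0,1), (1,3), (-1,3)`. `K` is constant by FAR: it is enough that `K` takes equal values at the two ends of the edges of representatives of the twelve cosets `Γ₀(9) \ SL₂(ℤ)`: `1`, `S T^j`, `(1 0; 3 1)`, `(1 0; -3 1)`
(the constants of `Γ₀(9)` cancel on edges), that is `K(-1/j) = K(0) = 0` for `1 ≤ j ≤ 8` etc.; see S3B3b (module `Pool/Agent/Helper90/W3/M_B3b.lean`): `K` is invariant without constant under `T = (1 1; 0 1)` (fixes `∞`), `L = (1 0; 9 1)` (fixes `0`), `P = (-2 1; -9 4)` (fixes `1/3`),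
`P' = (-2 -1; 9 4)` (fixes `-1/3`). `-1 = T⁻¹ 0`, `1/2 = P⁻¹ 0`, `-1/2 = T⁻¹ (1/2)`, `-1/4 = P' 0`, `-1/5 = P' (-1)`, `-1/7 = L⁻¹ (1/2)`, `-1/8 = L⁻¹ 1`, and `-1/3`, `-1/6 = L⁻¹ (1/3)` are `0` by the choice of `β`. -/
def Bast3 : Prop := ∀ (D : ℕ) (G : ℤ → ℤ → ℂ), D % 4 = 3 → D % 3 ≠ 0 → Sym3 0 2 G → evT D G = 0

/-- UBT3. The space of new symbols (`W = (-1)^n = -w3 n`, `* = -1`) modulo constants has dimension at most `dt3 n`. (Upper bound, modules of helper76.) -/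
def UBT3 : Prop := ∀ n : ℕ, 3 ≤ n →
  ∃ Θ : NSS3 n (w3 n) (-1) →ₗ[ℂ] (Fin (dt3 n) → ℂ), ∀ G : NSS3 n (w3 n) (-1), Θ G = 0 → EqC (G : ℤ → ℤ → ℂ) 0

/-- LBT3. The twisted values of the symbols of level `3^n` (`n ≥ 3`) span a space of dimension at least `DT3 n`. -/
def LBT3 : Prop := ∀ (D n : ℕ), Okt D → 3 ≤ n → ∃ G : Fin (DT3 n) → (ℤ → ℤ → ℂ),
  (∀ k, Sym3 0 n (G k)) ∧ LinearIndependent ℂ (fun k => evT D (G k))

/-- CORET3. A new symbol of level `3^n` (`W = (-1)^n`, `* = -1`) whose twisted values vanish is constant. -/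
def CoreT3 : Prop := ∀ (D n : ℕ) (G : ℤ → ℤ → ℂ), Okt D → 3 ≤ n → NewSym3S n (w3 n) (-1) G →
  evT D G = 0 → EqC G 0

/-- CORET3OF. As `CoreDof` of project TT (module `Pool/Agent/Helper8/TT/M_CoreDof.lean`) and `S3CoreOf`: `V m = (XS3 m).map (evT D)`; `V 2 = 0` by BAST3, `V m ≤ V (m-1) ⊔ (NSS3 m (w3 m) (-1)).map (evT D)` by DECT3, `finrank ((NSS3 m ..).map (evT D)) ≤ dt3 m` by UBT3, and `≤ dt3 m - 1` if the core
fails at `m` (then `dt3 m ≥ 1`, because `EqC G 0` fails for some `G` in the kernel of `evT`); sum up, against LBT3 (`DT3 n = ∑ dt3 m`). -/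
def CoreT3of : Prop := Dect3 → Bast3 → UBT3 → LBT3 → CoreT3

end Pool.Agent.Helper14.T3
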