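import Pool.Agent.Helper14.T3.StC

/-!
# Project T3: lower bound

Everything modulo `3`, `m = 3^(r+1)`, symbols of level `(r+1, s+1)`, `r ≥ 1`, plane `ZMod (3^r) × ZMod (3^s)`, three plane functions `pf G 0, 1, 2`
(project W3). On a symbol whose plane functions have degree at most `2` the twisted path is the quadratic form
`dX² - dY²` of `pf G 1 - pf G 2` times `χ(m) (∑ χ(a) a)²`: by Dedekind sums modulo `3`. All statements were tested by machine.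
-/

set_option autoImplicit false

namespace Pool.Agent.Helper14.T3

open Pool.Agent.Helper14.CV (Homog EqC act Tl StFar StNrm StCom StLvl)
open Pool.Agent.Helper14.W3 Pool.Agent.Helper78.W3
open Pool.Agent.Helper76.TX (eX Sg)
open Pool.Agent.Helper14.TT (eXb)

/-! ### Dedekind sums -/

/-- `∑_{k<q} k (pk mod q)`. (The Dedekind sum is `s(p,q) = dS p q / q² - (q-1)/4`.) -/
def dS (p : ℤ) (q : ℕ) : ℤ := ∑ k ∈ Finset.range q, (k : ℤ) * ((p * (k : ℤ)) % (q : ℤ))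

/-- `dS u v - dS (3u) v` for `v > 0`, and `IZ u v = IZ (-u) (-v)`. -/
def IZ (u v : ℤ) : ℤ := dS (u * v.sign) v.natAbs - dS (3 * (u * v.sign)) v.natAbs

/-- `(t² - 1)/3` modulo `3`. -/
def th (t : ℤ) : ZMod 3 := (((t ^ 2 - 1) / 3 : ℤ) : ZMod 3)

/-- DSB. Basic facts: (a) periodic, (b) `pk mod q + (-pk) mod q = q` for `0 < k < q`, `p` prime to `q`; (c) if `p p' = 1` modulo `q`: re-index by `j = pk mod q`, `k = p'j mod q`. -/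
def Dsb : Prop := ∀ (p : ℤ) (q : ℕ), 1 ≤ q →
  (∀ p' : ℤ, (q : ℤ) ∣ p - p' → dS p q = dS p' q) ∧
  (IsCoprime p (q : ℤ) → 2 * (dS p q + dS (-p) q) = (q : ℤ) ^ 2 * (q - 1)) ∧
  (∀ p' : ℤ, (q : ℤ) ∣ p * p' - 1 → dS p q = dS p' q)

/-- DSR. Reciprocity. Proof (`p, q ≥ 1` coprime): let `f_k = (pk) / q` (floor), `r_k = pk mod q = pk - q f_k`, `0 ≤ k < q`, and `g_j = (qj) / p`, `0 ≤ j < p`. (i) `∑ r_k² = ∑ k²` (`k ↦ r_k` is a permutation), so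
`p² ∑k² - 2pq ∑ k f_k + q² ∑ f_k² = ∑ k²`. (ii) `f_k² = ∑_{1 ≤ j ≤ f_k} (2j - 1)`, and for `1 ≤ j < p`: `f_k ≥ j` iff `pk ≥ qj` iff `k > g_j` (no equality since `0 < j < p`), so `∑_k f_k² = ∑_{1≤j<p} (2j-1)(q-1-g_j) = (q-1)(p-1)² - 2 ∑ j g_j + ∑ g_j`. (iii) `∑ g_j = (p-1)(q-1)/2`
(`g_j + g_(p-j) = q - 1`, `0 < j < p`). Hence `12 (p A + q B) = (p-1)(q-1)(8pq - p - q - 1)`, `A = ∑ k f_k`, `B = ∑ j g_j`; and `dS p q = p ∑ k² - q A`, `dS q p = q ∑ j² - p B`, `6 ∑_{k<q} k² = (q-1) q (2q-1)`. -/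
def Dsr : Prop := ∀ p q : ℕ, 1 ≤ p → 1 ≤ q → Nat.Coprime p q →
  12 * (p : ℤ) ^ 2 * dS p q + 12 * (q : ℤ) ^ 2 * dS q p =
    p * q * ((p : ℤ) ^ 2 + q ^ 2 + 1) + 3 * (p : ℤ) ^ 2 * q ^ 2 * (p + q - 3)

/-- R1 (from DSB, DSR). For `a` prime to `3c`, `c ≥ 1`. Proof. For `a > 0`: DSR for `(c, a)` and for `(3c, a)`, eliminate `dS c a` and `dS (3c) a` (`IZ c a = dS c a - dS (3c) a`): multiply the first by `9`, subtract the second; a polynomial identity.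
For `a < 0`: `IZ c a = -IZ c (-a)` (DSB (b) at `c`, `3c` modulo `|a|`), and `dS a c`, `dS a (3c)` by DSB (b). -/
def Dr1 : Prop := ∀ (a : ℤ) (c : ℕ), 1 ≤ c → IsCoprime a (3 * (c : ℤ)) →
  18 * (c : ℤ) ^ 2 * IZ c a = -2 * a ^ 2 * (9 * dS a c - dS a (3 * c)) - 9 * a ^ 2 * (c : ℤ) ^ 3 +
    a * c * (a ^ 2 - 3 * (c : ℤ) ^ 2 + 1)

/-- EDGI (from R1, DSB). Proof. `c = 0`: `a = Q = ±1`, `IZ u (±1) = 0`. The identity is invariant under `(c, P) ↦ (-c, -P)` (`IZ (-u) v = -IZ u v` for `u` prime to `v`, `3 ∤ v`, by DSB (b)), so let `c > 0`. (i) `IZ P Q = IZ c Q`: modulo `Q`, `3cP = -1`, so `P` is the inverse of `-3c`, `3P` that of `-c`: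
`dS P |Q| = dS (-3c) |Q|`, `dS (3P) |Q| = dS (-c) |Q|` (DSB (c)), then DSB (b). (ii) R1 for `(a, c)` and `(Q, c)`; `9 dS a c - dS a (3c)` is the same for `Q` (`a Q = 1` modulo `3c`, DSB (c)). Eliminate it: `18 c² (IZ c a Q² - IZ c Q a²) = acQ(a-Q)(aQ + 3c² - 1)`, `aQ - 1 = 3cP`; divide by `3c²`. -/
def Edgi : Prop := ∀ a c P Q : ℤ, a * Q - 3 * c * P = 1 →
  6 * (IZ c a * Q ^ 2 - IZ P Q * a ^ 2) = a * Q * (a - Q) * (P + c)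

/-- SEDGE (from EDGI). Proof. By EDGI, with `a - Q = 3w` and modulo `3` (`aQ = a² = Q² = 1`): `IZ c a - IZ P Q = -w (P + c)`. (1) `P = 3b`, `Q = d`: `w = a θ(a)` as `a w = (a² - ad)/3 = (a²-1)/3 - 3bc`. (2) `P = a + 3b`, `Q = 3c + d`: `w = aθ(a) - c`, and
`θ(Q) = θ(d) + 2cd = -θ(a) - ac` (`θ(d) = -θ(a)` as `a²d² = 1` modulo `9`, `cd = ca`). (3) `P = 3b - a`, `Q = d - 3c`: `w = aθ(a) + c`, `θ(Q) = -θ(a) + ac`. -/
def Sedge : Prop := ∀ a b c d : ℤ, a * d - 9 * b * c = 1 →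
  ((IZ c a : ZMod 3) + a * c * th a = (IZ (3 * b) d : ZMod 3)) ∧
  ((IZ c a : ZMod 3) + a * c * th a = (IZ (a + 3 * b) (3 * c + d) : ZMod 3) + th (3 * c + d) +
    (a * c : ZMod 3) ^ 2 - a * c) ∧
  ((IZ c a : ZMod 3) + a * c * th a = (IZ (3 * b - a) (d - 3 * c) : ZMod 3) - th (d - 3 * c) -
    (a * c : ZMod 3) ^ 2 - a * c)

/-- The explicit symbol. The coefficients: `F0 = al x + be y`, `be = 2 u1 + u2 + 2A + C`, `F1 = u0 + u1 x + u2 y + A x² + B x y + C y²`, `F2(x,y) = -F1(-x,-y)`. -/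
def E3 (al A B C u0 u1 u2 : ZMod 3) (p q : ℤ) : ZMod 3 :=
  if 3 ∣ p then
    -al * ((p / 3 : ℤ) : ZMod 3) * q + (C + B) * (IZ p q : ZMod 3) +
      (A + B) * ((IZ (p / 3) q : ZMod 3) + q * ((p / 3 : ℤ) : ZMod 3) * th q)
  else if 3 ∣ q then
    (C + B) * ((IZ (q / 3) p : ZMod 3) + p * ((q / 3 : ℤ) : ZMod 3) * th p) +
      (A + B) * (IZ q p : ZMod 3) + (2 * u1 + u2 + 2 * A + C) * p * ((q / 3 : ℤ) : ZMod 3)
  else if 3 ∣ p - q then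
    -u0 + (C + B) * ((IZ p q : ZMod 3) + th q) + (A + B) * ((IZ q p : ZMod 3) + th p) +
      B * (((p * q - 1) / 3 : ℤ) : ZMod 3) ^ 2 - B * (((p * q - 1) / 3 : ℤ) : ZMod 3) -
      (u1 + A) * (((p * q - 1) / 3 : ℤ) : ZMod 3)
  else
    u0 + (C + B) * ((IZ p q : ZMod 3) - th q) + (A + B) * ((IZ q p : ZMod 3) - th p) -
      B * (((p * q + 1) / 3 : ℤ) : ZMod 3) ^ 2 - B * (((p * q + 1) / 3 : ℤ) : ZMod 3) -
      (u1 + A) * (((p * q + 1) / 3 : ℤ) : ZMod 3)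

/-- EEDGE (from SEDGE). The edges of the explicit symbol, `x = a b`, `y = a c` modulo `3` (these are `b/a`, `c/d`). Proof. `E3` is a combination of: `S` (coefficient `C + B`; at the four types of cusps `IZ (q/3) p + p (q/3) θ(p)`, `IZ p q`, `IZ p q + θ(q)`, `IZ p q - θ(q)`): SEDGE;
`S'` (coefficient `A + B`; `IZ q p`, `IZ (p/3) q + q (p/3) θ(q)`, `IZ q p + θ(p)`, `IZ q p - θ(p)`): SEDGE for `(d, c, b, a)` in the place of `(a, b, c, d)`, and its line (1) `IZ b d + d b θ(d) = IZ (3c) a`; the rest are congruence terms: for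
`P = a + 3b`, `Q = 3c + d`: `(PQ - 1)/3 = ac + bd + 6bc = x + y` modulo `3` (`bd = ab`); for `P' = 3b - a`, `Q' = d - 3c`: `(P'Q' + 1)/3 = x + y`; `IZ` is even: `IZ (-u) (-v) = IZ u v`. The types: `3 ∣ 3b`, `3 ∤ a`, `P = Q ≠ 0` modulo `3`, `P' = -Q' ≠ 0` modulo `3`. -/
def Eedge : Prop := ∀ al A B C u0 u1 u2 : ZMod 3,
  (∀ p q : ℤ, E3 al A B C u0 u1 u2 (-p) (-q) = E3 al A B C u0 u1 u2 p q) ∧
  ∀ a b c d : ℤ, a * d - 9 * b * c = 1 →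
  (E3 al A B C u0 u1 u2 a (3 * c) - E3 al A B C u0 u1 u2 (3 * b) d =
    al * (a * b) + (2 * u1 + u2 + 2 * A + C) * (a * c)) ∧
  (E3 al A B C u0 u1 u2 a (3 * c) - E3 al A B C u0 u1 u2 (a + 3 * b) (3 * c + d) =
    u0 + u1 * (a * b) + u2 * (a * c) + A * (a * b) ^ 2 + B * (a * b) * (a * c) + C * (a * c) ^ 2) ∧
  (E3 al A B C u0 u1 u2 a (3 * c) - E3 al A B C u0 u1 u2 (3 * b - a) (d - 3 * c) =
    -(u0 - u1 * (a * b) - u2 * (a * c) + A * (a * b) ^ 2 + B * (a * b) * (a * c) + C * (a * c) ^ 2))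

/-- FARP. A function with the same value at the ends of the three edges `g{∞,0}`, `g{∞,1}`, `g{∞,-1}`, `g = (a 3b; 3c d)`, is constant on coprime pairs. Proof. Every edge `(p, q)`, `(p', q')` (`p q' - q p' = ±1`) has equal values: modulo `3` the vertices of an edge are two different points of the projective line;
if one is `∞ = (1:0)`, the edge is `g{∞, e}`, `e = 0, 1, -1`, up to signs and orientation; if not, one of its two neighbours `(p ± p', q ± q')` is of type `∞`, and both edges to it have equal values. Then induction on `|q|` (or FAR of CV, `StFar`, for the homogeneous function `K(p/g, q/g)`, `g = gcd`). -/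
def Farp : Prop := ∀ K : ℤ → ℤ → ZMod 3, (∀ p q : ℤ, K (-p) (-q) = K p q) →
  (∀ a b c d : ℤ, a * d - 9 * b * c = 1 → K a (3 * c) = K (3 * b) d ∧
    K a (3 * c) = K (a + 3 * b) (3 * c + d) ∧ K a (3 * c) = K (3 * b - a) (d - 3 * c)) →
  ∀ p q : ℤ, IsCoprime p q → K p q = K 1 0

/-- The representative modulo `3` of a coordinate. -/
def r3 {q : ℕ} (x : ZMod q) : ZMod 3 := ((x.val : ℕ) : ZMod 3)

/-- The plane functions of `H` are those of `E3` (with `x`, `y` modulo `3`); for `s = 0` (where `y = 0`) the coefficients of the terms with `y` vanish. -/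
def Quad (r s : ℕ) (H : ℤ → ℤ → ZMod 3) (al A B C u0 u1 u2 : ZMod 3) : Prop :=
  (s = 0 → u2 = 0 ∧ B = 0 ∧ C = 0 ∧ u1 + A = 0) ∧
  ∀ (x : ZMod (3 ^ r)) (y : ZMod (3 ^ s)),
  pf H 0 x y = al * r3 x + (2 * u1 + u2 + 2 * A + C) * r3 y ∧
  pf H 1 x y = u0 + u1 * r3 x + u2 * r3 y + A * r3 x ^ 2 + B * r3 x * r3 y + C * r3 y ^ 2 ∧
  pf H 2 x y = -(u0 - u1 * r3 x - u2 * r3 y + A * r3 x ^ 2 + B * r3 x * r3 y + C * r3 y ^ 2)

/-- NEG3 (from LOW0, BB, REL, EDG, PLA of W3). For a symbol `G` whose three plane functions have degree at most `2`, `r ≥ 1`: the odd part `H = G - G∘*` (a symbol of the same level) is as in `Quad`. Proof. `pf H 0 (x,y) = F0(x,y) - F0(-x,-y)`, `pf H 1 (x,y) = F1(x,y) - F2(-x,-y)`,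
`pf H 2 (x,y) = F2(x,y) - F1(-x,-y)` (`G∘*(g∞) - G∘*(g e) = G(g'∞) - G(g'(-e))`, `g' = * g *` has coordinates `(-x,-y)`; EDG with PLA). By BB `F_f = ∑_{i+j≤2} c^f_ij bb3 i j`, `c^f_ij = (dX^i dY^j F_f)(0,0)` (`= 0` if `i ≥ 3^r` or `j ≥ 3^s`); `bb3 1 0 = x`, `bb3 2 0 = x - x²`, `bb3 1 1 = x y`
modulo `3` (`r ≥ 1`; if `s = 0` only `j = 0` occurs, `y = 0`), `-x` has representative `-x` modulo `3`. So `F0 - F0(-) = 2(c_10 + c_20) x + 2 (c_01 + c_02) y`, and `u = F1 - F2(-)` has `A = -(c^1_20 - c^2_20)`, `B = c^1_11 - c^2_11`, `C = -(c^1_02 - c^2_02)`, `u0 = c^1_00 - c^2_00`, `u1 = c^1_10 + c^1_20 + c^2_10 + c^2_20`,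
`u2 = c^1_01 + c^1_02 + c^2_01 + c^2_02`. REL for `H` at `x = y = 0` gives the value of `be` (`s ≥ 1`: `-be + 2u1 + u2 + 2A + C = 0`), and for `s = 0`: `2 u1 + 2A = 0`. -/
def Neg3 : Prop := ∀ (r s : ℕ) (G : ℤ → ℤ → ZMod 3), 1 ≤ r → Sym3 (r + 1) (s + 1) G →
  (∀ f, (pf G f : Fn3 (3 ^ r) (3 ^ s)) ∈ Wd3 2) →
  ∃ al A B C u0 u1 u2 : ZMod 3, Sym3 (r + 1) (s + 1) (fun p q => G p q - G (-p) q) ∧
    Quad r s (fun p q => G p q - G (-p) q) al A B C u0 u1 u2 ∧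
    C - A = ((dX ^ 2 - dY ^ 2 : Module.End (ZMod 3) (Fn3 (3 ^ r) (3 ^ s))) (pf G 1 - pf G 2)) 0 0

/-- TREE3 (from EEDGE, FARP, EDG, PLA). A symbol with the plane functions `Quad` is `E3` up to a constant, on coprime pairs. Proof. FARP for `K = H - E3`: for `g = (a 3b; 3c d)` with coordinates `x = b/a`, `y = c/d` one has `r3 x = ab`, `r3 y = cd = ca` (if `s ≥ 1`; `a² = d² = ad = 1` modulo `3`), and the three edges of `H` by EDG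
(`μ = 1`); for `s = 0` the terms with `r3 y = 0` or `ca` have coefficient `0` on both sides. `E3 .. 1 0 = 0` (`IZ 0 1 = 0`). -/
def Tree3 : Prop := ∀ (r s : ℕ) (H : ℤ → ℤ → ZMod 3) (al A B C u0 u1 u2 : ZMod 3), 1 ≤ r →
  Sym3 (r + 1) (s + 1) H → Quad r s H al A B C u0 u1 u2 →
  ∀ p q : ℤ, IsCoprime p q → H p q = H 1 0 + E3 al A B C u0 u1 u2 p q

/-- CHS. `∑_a χ(a) dS(ma, D) = χ(m) (∑ χ(a) a)²`. Proof. The left side is `∑_k k S_k`, `S_k = ∑_a χ(a) ((mak) mod D)`. If `k` is prime to `D`: substitute `j = mak mod D`, `χ(a) = χ(m) χ(k) χ(j)`: `S_k = χ(m) χ(k) Tn D`. If a prime `ℓ` divides `k` and `D`: let `b = 1` modulo `D/ℓ` and `b` a nonresidue modulo `ℓ`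
(`D` squarefree: chinese remainder), `χ(b) = -1`, `b k = k` modulo `D`; `a ↦ ab` gives `S_k = -S_k = 0`, and `χ(k) = 0`. -/
def Chs : Prop := ∀ (D : ℕ) (m : ℤ), Squarefree D → D % 4 = 3 → IsCoprime m (D : ℤ) →
  ∑ a ∈ Finset.range D, jacobiSym (a : ℤ) D * dS (m * (a : ℤ)) D = jacobiSym m D * Tn D ^ 2

/-- X3L (from NEG3, TREE3, CHS). The leading form of the twisted path, `m = 3^(r+1)`, `r ≥ 1`; `D % 12 = 7` gives `χ(3) = jacobiSym 3 D = -1` (reciprocity), `χ(m) = (-1)^(r+1)`. Proof. In `ZMod 3`: `∑ χ(a) = 0` (`D % 4 = 3`: `a ↦ D - a`), so `eXb D m G = ∑ χ(a) G(ma, D)`; `G(-ma, D) = G(m(D - a), D)` (`(1 m; 0 1)` is in the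
group and fixes `∞`, no constant), so with `H = G - G∘*`: `∑ χ(a) H(ma, D) = 2 ∑ χ(a) G(ma, D)`. For `a` prime to `D` the pair `(ma, D)` is coprime, `9 ∣ ma`, so by NEG3, TREE3: `H(ma, D) = H(1,0) + (C+B) IZ(ma, D) + (A+B) IZ((m/3) a, D)`. By CHS `∑ χ(a) IZ(ma, D) = (χ(m) - χ(3m)) T² = 2 χ(m) T²` and
`∑ χ(a) IZ((m/3) a, D) = (χ(m/3) - χ(m)) T² = -2 χ(m) T²`, `T = Tn D`. So `2 eXb D m G = 2 χ(m) T² (C - A)`. -/
def X3l : Prop := ∀ (D r s : ℕ) (G : ℤ → ℤ → ZMod 3), Squarefree D → D % 12 = 7 → 1 ≤ r →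
  Sym3 (r + 1) (s + 1) G → (∀ f, (pf G f : Fn3 (3 ^ r) (3 ^ s)) ∈ Wd3 2) →
  eXb D (3 ^ (r + 1)) G = (-1) ^ (r + 1) * ((Tn D : ℤ) : ZMod 3) ^ 2 *
    ((dX ^ 2 - dY ^ 2 : Module.End (ZMod 3) (Fn3 (3 ^ r) (3 ^ s))) (pf G 1 - pf G 2)) 0 0

/-- ITR3 (from X3L and REL, HKB, HK2, HK7, LOW0, LW1, LD, TRM of W3; model `Pool/Agent/Helper76/W3/M_Itr.lean`, whose steps can be used). For a symbol `G` modulo 3 with `F_f(G) ∈ Wd3 d` and `κ = (-1)^(r+1) T²`: `evTb D m G i j = 0` if `i + 4j + 2 > d`; if `i + 4j + 2 = d` and `i = 2e` it is `κ ((dX² - dY²) Qo^e Lo^j (F1 - F2)) 0 0`, if `i = 2e+1` it is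
`κ ((dX + dY) Qo^(e+1) Lo^j F0) 0 0`. Proof. As in S3ITR: `F_f(T_2² G) ≡ Qo F_f` modulo `Wd3 (d-3)`, `F_f(Bo G) ≡ Lo F_f` modulo `Wd3 (d-5)`, `F_f(T_2 G) ∈ Wd3 (d-1)`. Even `i`: `h = Bo^j T_2^i G` has degree at most `2`: X3L. Odd `i`: `G' = T_2^(2e) G`, `K = T_2 G'`, `Φ = (F1 - F2)(K)`. By LD (last line) for `K`
(degree at most `d' - 1`, `d' = d - 2e`): `F_0(T_2 K) ≡ -oN (dX - dY) Φ` modulo `Wd3 (d'-3)`, and `F_0(T_2 K) ≡ Qo F_0(G')` modulo `Wd3 (d'-3)`; so `oN (dX - dY) Φ + Qo F_0(G') ∈ Wd3 (d'-3)`. Apply `Lo^j (dX + dY)`, use that `dX oN + oN dX`, `dY oN + oN dY` lower by `2` (`(dX oN F + oN dX F)(x) = F(-x-1) - 2F(-x) + F(-x+1)`) and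
`Lo oN - oN Lo` by `5`: for `d' = 4j + 3` all errors vanish, and at the origin (`oN F 0 0 = F 0 0`) `((dX² - dY²) Lo^j Φ)(0,0) = ((dX + dY) Lo^j Qo F_0(G'))(0,0)`. The left side times `κ` is `eXb D m (Bo^j K)` (X3L). If `i + 4j + 2 > d` the degree is at most `1` and X3L gives `0`. -/
def Itr3 : Prop := ∀ (D r s : ℕ) (G : ℤ → ℤ → ZMod 3) (d : ℕ), Squarefree D → D % 12 = 7 → 1 ≤ r →
  Sym3 (r + 1) (s + 1) G → (∀ f, (pf G f : Fn3 (3 ^ r) (3 ^ s)) ∈ Wd3 (d : ℤ)) → ∀ i j : ℕ,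
  (d < i + 4 * j + 2 → evTb D (3 ^ (r + 1)) G i j = 0) ∧
  (i + 4 * j + 2 = d → i % 2 = 0 → evTb D (3 ^ (r + 1)) G i j =
    (-1) ^ (r + 1) * ((Tn D : ℤ) : ZMod 3) ^ 2 *
    (((dX ^ 2 - dY ^ 2) * Qo ^ (i / 2) * Lo ^ j : Module.End (ZMod 3) (Fn3 (3 ^ r) (3 ^ s)))
      (pf G 1 - pf G 2)) 0 0) ∧
  (i + 4 * j + 2 = d → i % 2 = 1 → evTb D (3 ^ (r + 1)) G i j =
    (-1) ^ (r + 1) * ((Tn D : ℤ) : ZMod 3) ^ 2 *
    (((dX + dY) * Qo ^ (i / 2 + 1) * Lo ^ j : Module.End (ZMod 3) (Fn3 (3 ^ r) (3 ^ s)))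
      (pf G 0)) 0 0)

/-- TRI3 (from LOW0, BB, LED, EX of W3 and ITR3; model `Pool/Agent/Helper22/W3/M_Tri.lean`). Put `e = (i+1)/2`, `al = e + 3j + 2 < 3^r`, `be = e + j < 3^s`; take LED (H) if `i` is even (then `F_f ∈ Wd3 (al + be)`, `al + be = i + 4j + 2`), LED (P) if `i` is odd (`F_f ∈ Wd3 (al + be - 1)`, `al + be - 1 = i + 4j + 2`), and the symbol `G` of EX.
ITR3 with `d = i + 4j + 2`. If `i' + 4j' = i + 4j` then `i'`, `i` have the same parity and with `e' = (i'+1)/2` the value is `± κ (Qo^e' Lo^j' (dX - dY)(dX + dY) bb3 al be)(0,0)` (in the odd case `F0 ≡ (dX - dY) bb3 al be`), `Qo^e' Lo^j' (dX - dY)(dX + dY) = (-1)^j' (dX dY)^(e'+j') (dX - dY)^(2j'+1) (dX + dY)`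
(`Lo = -dX dY (dX - dY)²` modulo 3); the coefficient of `dX^al dY^be` is `0` if `e' + j' > be`, and `±1` for `(i', j') = (i, j)` (that of `dX^(2j+2)`). `κ ≠ 0` as `3 ∤ Tn D`. -/
def Tri3 : Prop := ∀ (D r s i j : ℕ), Okt D → 1 ≤ r → (i + 1) / 2 + 3 * j + 2 < 3 ^ r →
  (i + 1) / 2 + j < 3 ^ s →
  ∃ G : ℤ → ℤ → ZMod 3, Sym3 (r + 1) (s + 1) G ∧ evTb D (3 ^ (r + 1)) G i j ≠ 0 ∧
    ∀ i' j' : ℕ, evTb D (3 ^ (r + 1)) G i' j' ≠ 0 →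
      (i' + 4 * j' < i + 4 * j ∨ (i' + 4 * j' = i + 4 * j ∧ (i' + 1) / 2 + j' ≤ (i + 1) / 2 + j))

/-- LIF3. Lifting symbols (as `S3Lif`, model `Pool/Agent/Helper66/W3/M_Lif.lean`, and `Pool/Agent/Helper1/TT/M_LifT.lean`). -/
def Lif3 : Prop := ∀ (r s : ℕ) (g : ℤ → ℤ → ZMod 3), Sym3 (r + 1) (s + 1) g →
  ∃ G : ℤ → ℤ → ℤ, Sym3 (r + 1) (s + 1) G ∧ EqC (fun p q => ((G p q : ℤ) : ZMod 3)) g ∧
    ∀ D i j : ℕ, D ≠ 0 → ((evTb D (3 ^ (r + 1)) G i j : ℤ) : ZMod 3) = evTb D (3 ^ (r + 1)) g i j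

/-- UNB3. Back to `Γ₀(3^n)` (as `S3Unb`, model `Pool/Agent/Helper34/W3/M_Unb.lean`, and `Pool/Agent/Helper85/TT/M_UnbT.lean`). -/
def Unb3 : Prop := ∀ (D r s : ℕ) (G : ℤ → ℤ → ℤ), D ≠ 0 → Sym3 r s G →
  Sym3 0 (r + s) (fun p q => ((G (3 ^ r * p) q : ℤ) : ℂ)) ∧
    ∀ i j : ℕ, evT D (fun p q => ((G (3 ^ r * p) q : ℤ) : ℂ)) i j = ((evTb D (3 ^ r) G i j : ℤ) : ℂ)

/-- CNT3. Counting the index set. `DT3 (2k) = q(q-2)/3`, `q = 3^(k-1)`, `k ≥ 2`; `DT3 (2k+1) = q²`, `q = 3^(k-1)`, `k ≥ 1` (values `1, 1, 9, 21, 81, 225, 729` for `n = 3, ..., 9`). The value `(i+1)/2 = e` is taken once for `e = 0`, twice for `e ≥ 1`. First set: `{e + 3j + 2 < q}` (the second condition follows), `m = q/3`: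
`∑_{j<m} (q - 2 - 3j) = m(3m-1)/2` and with `e ≥ 1`: `3m(m-1)/2`. Second set: the first condition follows from the second: `q(q+1)/2` and `q(q-1)/2`. -/
def Cnt3 : Prop :=
  (∀ k : ℕ, 2 ≤ k → ((Finset.range (2 * 3 ^ k) ×ˢ Finset.range (3 ^ k)).filter fun t : ℕ × ℕ =>
    (t.1 + 1) / 2 + 3 * t.2 + 2 < 3 ^ (k - 1) ∧ (t.1 + 1) / 2 + t.2 < 3 ^ (k - 1)).card = DT3 (2 * k)) ∧
  (∀ k : ℕ, 1 ≤ k → ((Finset.range (2 * 3 ^ (k + 1)) ×ˢ Finset.range (3 ^ (k + 1))).filter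
    fun t : ℕ × ℕ => (t.1 + 1) / 2 + 3 * t.2 + 2 < 3 ^ k ∧ (t.1 + 1) / 2 + t.2 < 3 ^ (k - 1)).card =
    DT3 (2 * k + 1))

/-- LB3OF. LBT3 from TRI3, LIF3, UNB3, CNT3, as `S3LBof` (model `Pool/Agent/Helper60/W3/M_LBof.lean`) and `LBDof` (`Pool/Agent/Helper36/TT/M_LBDof.lean`): `n = 2k`: `(r,s) = (k-1,k-1)`, `k ≥ 2`; `n = 2k+1`: `(r,s) = (k,k-1)`, `k ≥ 1`; matrix `M (κ, (i,j)) = evTb D m G_κ i j`; the order
(`i + 4j`, then `(i+1)/2 + j`) determines `(i, j)` (`i + 4j` gives the parity of `i`, so `e = (i+1)/2` and `i` determine each other, `2e + 4j` and `e + j` are known). -/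
def LB3of : Prop := Tri3 → Lif3 → Unb3 → Cnt3 → LBT3

end Pool.Agent.Helper14.T3
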